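import Mathlib
import Pool.Agent.helper82.PW.Inf
import Pool.Agent.helper82.PW.Powers

/-!
# Powers of the primes with exponents in `ℚ(S)`
-/

set_option autoImplicit false

namespace Pool.Agent.helper80.FF

open Complex Pool.Agent.helper82.PW

/-- logarithms of the primes are linearly independent over the rationals -/
theorem log_primes_li : LinearIndependent ℚ (fun p : Nat.Primes => (Real.log (p : ℕ) : ℝ)) := by
  rw [← LinearIndependent.iff_fractionRing ℤ ℚ, linearIndependent_iff']
  intro s g hg j hj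
  have hpos : ∀ p : Nat.Primes, (0 : ℝ) < ((p : ℕ) : ℝ) := fun p => by exact_mod_cast p.2.pos
  have h1 : ∑ p ∈ s, ((g p).toNat : ℝ) * Real.log (p : ℕ) =
      ∑ p ∈ s, ((-g p).toNat : ℝ) * Real.log (p : ℕ) := by
    rw [← sub_eq_zero, ← Finset.sum_sub_distrib, ← hg]
    refine Finset.sum_congr rfl fun p _ => ?_
    rw [← sub_mul, zsmul_eq_mul]
    congr 1
    have h2 : ((g p).toNat : ℤ) - ((-g p).toNat : ℤ) = g p := by omega
    exact_mod_cast h2
  have h2 : ∏ p ∈ s, ((p : ℕ) : ℝ) ^ (g p).toNat = ∏ p ∈ s, ((p : ℕ) : ℝ) ^ (-g p).toNat := by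
    apply Real.log_injOn_pos
    · exact Finset.prod_pos fun p _ => pow_pos (hpos p) _
    · exact Finset.prod_pos fun p _ => pow_pos (hpos p) _
    · rw [Real.log_prod (fun p _ => (pow_pos (hpos p) _).ne'),
        Real.log_prod (fun p _ => (pow_pos (hpos p) _).ne')]
      simpa only [Real.log_pow] using h1
  have h3 : ∏ p ∈ s, (p : ℕ) ^ (g p).toNat = ∏ p ∈ s, (p : ℕ) ^ (-g p).toNat := by
    exact_mod_cast h2
  have h4 : ∀ e : Nat.Primes → ℕ, (∏ p ∈ s, (p : ℕ) ^ e p).factorization (j : ℕ) = e j := by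
    intro e
    rw [Nat.factorization_prod (fun p _ => (pow_pos p.2.pos _).ne'), Finsupp.finsetSum_apply]
    rw [Finset.sum_eq_single j]
    · rw [Nat.factorization_pow, Finsupp.smul_apply, Nat.Prime.factorization_self j.2]
      simp
    · intro p _ hpj
      rw [Nat.factorization_pow, Finsupp.smul_apply, Nat.Prime.factorization p.2,
        Finsupp.single_apply, if_neg (fun h => hpj (Subtype.ext h))]
      simp
    · intro h
      exact absurd hj h
  have h5 := h4 fun p => (g p).toNat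
  rw [h3, h4 fun p => (-g p).toNat] at h5
  omega

theorem clog_primes_li :
    LinearIndependent ℚ (fun p : Nat.Primes => ((Real.log (p : ℕ) : ℝ) : ℂ)) := by
  have h := log_primes_li.map' (Complex.ofRealCLM.toLinearMap.restrictScalars ℚ) (by
    rw [LinearMap.ker_eq_bot]
    exact Complex.ofReal_injective)
  exact h

theorem exp_log (p : Nat.Primes) : exp ((Real.log (p : ℕ) : ℝ) : ℂ) = ((p : ℕ) : ℂ) := by
  rw [← Complex.ofReal_exp, Real.exp_log (by exact_mod_cast p.2.pos)]
  simp

theorem not_tr (K : IntermediateField ℚ ℂ) (p : Nat.Primes) :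
    ¬ Transcendental K (exp ((Real.log (p : ℕ) : ℝ) : ℂ)) := by
  rw [exp_log]
  intro h
  apply h
  have : ((p : ℕ) : ℂ) = algebraMap K ℂ ((p : ℕ) : K) := by simp
  rw [this]
  exact isAlgebraic_algebraMap _

/-- logarithms of the primes are linearly independent over the field -/
theorem log_primes_liK {S : Set ℝ} (hS : Good S) {k : ℕ} (f : Fin k → Nat.Primes)
    (hf : Function.Injective f) :
    LinearIndependent (KS S) (fun i => ((Real.log (f i : ℕ) : ℝ) : ℂ)) := by
  have hz := clog_primes_li.comp f hf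
  obtain ⟨e, he⟩ := main_inf hS _ hz
  have h0 : k - dimK (KS S) ((fun p : Nat.Primes => ((Real.log (p : ℕ) : ℝ) : ℂ)) ∘ f) = 0 := by
    by_contra hne
    have h1 := he.transcendental ⟨0, Nat.pos_of_ne_zero hne⟩
    exact not_tr _ _ h1
  rw [linearIndependent_iff_card_le_finrank_span, Fintype.card_fin]
  exact Nat.sub_eq_zero_iff_le.1 h0

/-- the main step -/
theorem primes_fin {S : Set ℝ} (hS : Good S) {b : ℝ} (hb : Irrational b)
    (hbK : (b : ℂ) ∈ KS S) {k : ℕ} (f : Fin k → Nat.Primes) (hf : Function.Injective f) :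
    AlgebraicIndependent (KS S) (fun i => exp ((Real.log (f i : ℕ) : ℝ) * (b : ℂ))) := by
  classical
  set L : Fin k → ℂ := fun i => ((Real.log (f i : ℕ) : ℝ) : ℂ) with hL
  have hLK : LinearIndependent (KS S) L := log_primes_liK hS f hf
  set z : Fin (k + k) → ℂ := Fin.append L (fun i => L i * (b : ℂ)) with hz
  have hzQ : LinearIndependent ℚ z := by
    rw [Fintype.linearIndependent_iff] at hLK ⊢
    intro g hg
    rw [Fin.sum_univ_add] at hg
    have h1 : ∑ i, ((⟨((g (Fin.castAdd k i) : ℚ) : ℂ) + ((g (Fin.natAdd k i) : ℚ) : ℂ) * (b : ℂ),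
        add_mem (IntermediateField.algebraMap_mem (KS S) (g (Fin.castAdd k i)))
          (mul_mem (IntermediateField.algebraMap_mem (KS S) (g (Fin.natAdd k i))) hbK)⟩ : KS S)) •
          L i = 0 := by
      rw [← hg, ← Finset.sum_add_distrib]
      refine Finset.sum_congr rfl fun i _ => ?_
      rw [hz, Fin.append_left, Fin.append_right, Rat.smul_def, Rat.smul_def]
      show (((g (Fin.castAdd k i) : ℚ) : ℂ) + ((g (Fin.natAdd k i) : ℚ) : ℂ) * (b : ℂ)) * L i = _
      ring
    have h2 := hLK _ h1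
    have h3 : ∀ i, ((g (Fin.castAdd k i) : ℚ) : ℝ) + ((g (Fin.natAdd k i) : ℚ) : ℝ) * b = 0 := by
      intro i
      have h4 := congrArg (fun x : KS S => (x : ℂ)) (h2 i)
      simp only [ZeroMemClass.coe_zero] at h4
      exact_mod_cast h4
    have h4 : ∀ i, g (Fin.natAdd k i) = 0 := by
      intro i
      by_contra hne
      apply hb
      refine ⟨-g (Fin.castAdd k i) / g (Fin.natAdd k i), ?_⟩
      have h5 : ((g (Fin.natAdd k i) : ℚ) : ℝ) ≠ 0 := by exact_mod_cast hne
      push_cast
      rw [div_eq_iff h5]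
      linarith [h3 i]
    have h5 : ∀ i, g (Fin.castAdd k i) = 0 := by
      intro i
      have h6 := h3 i
      rw [h4 i] at h6
      simpa using h6
    intro i
    exact Fin.addCases h5 h4 i
  have hdim : dimK (KS S) z ≤ k := by
    have h1 : Submodule.span (KS S) (Set.range z) ≤ Submodule.span (KS S) (Set.range L) := by
      rw [Submodule.span_le]
      rintro _ ⟨i, rfl⟩
      rw [SetLike.mem_coe]
      refine Fin.addCases (fun i => ?_) (fun i => ?_) i
      · rw [hz, Fin.append_left]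
        exact Submodule.subset_span ⟨i, rfl⟩
      · rw [hz, Fin.append_right]
        have h2 : L i * (b : ℂ) = (⟨(b : ℂ), hbK⟩ : KS S) • L i := by
          show L i * (b : ℂ) = (b : ℂ) * L i
          ring
        rw [h2]
        exact Submodule.smul_mem _ _ (Submodule.subset_span ⟨i, rfl⟩)
    have : Module.Finite (KS S) (Submodule.span (KS S) (Set.range L)) :=
      Module.Finite.span_of_finite _ (Set.finite_range L)
    have h2 := finrank_range_le_card (R := KS S) L
    rw [Fintype.card_fin] at h2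
    exact (Submodule.finrank_mono h1).trans h2
  obtain ⟨e, he⟩ := main_inf hS z hzQ
  have hcard : k ≤ k + k - dimK (KS S) z := by omega
  have he0 : ∀ i, ∃ j : Fin k, e i = Fin.natAdd k j := by
    intro i
    have h1 := he.transcendental i
    revert h1
    refine Fin.addCases (motive := fun x => Transcendental (KS S) (exp (z x)) →
      ∃ j : Fin k, x = Fin.natAdd k j) (fun j h1 => ?_) (fun j _ => ⟨j, rfl⟩) (e i)
    rw [hz, Fin.append_left] at h1
    exact absurd h1 (not_tr _ _)
  choose g0 hg0 using he0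
  let g : Fin k → Fin k := fun i => g0 (Fin.castLE hcard i)
  have hg : Function.Injective g := by
    intro i j hij
    have h1 : e (Fin.castLE hcard i) = e (Fin.castLE hcard j) := by
      rw [hg0, hg0]
      exact congrArg (Fin.natAdd k) hij
    exact Fin.castLE_injective _ (e.injective h1)
  have hgb : Function.Bijective g := Finite.injective_iff_bijective.1 hg
  let E := Equiv.ofBijective g hgb
  have h3 := he.comp (fun i : Fin k => Fin.castLE hcard (E.symm i)) (by
    intro i j hij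
    exact E.symm.injective (Fin.castLE_injective _ hij))
  have h4 : ((fun i => exp (z (e i))) ∘ fun i : Fin k => Fin.castLE hcard (E.symm i)) =
      fun i => exp ((Real.log (f i : ℕ) : ℝ) * (b : ℂ)) := by
    funext i
    have h5 : g (E.symm i) = i := E.apply_symm_apply i
    have h6 : e (Fin.castLE hcard (E.symm i)) = Fin.natAdd k i := by
      rw [hg0]
      exact congrArg (Fin.natAdd k) h5
    rw [Function.comp_apply, h6, hz, Fin.append_right]
  rw [h4] at h3
  exact h3

theorem cpow_eq (n : ℕ) (hn : n ≠ 0) (b : ℝ) :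
    ((n : ℕ) : ℂ) ^ (b : ℂ) = exp ((Real.log n : ℝ) * (b : ℂ)) := by
  rw [Complex.cpow_def_of_ne_zero (by exact_mod_cast hn)]
  congr 2
  exact (Complex.natCast_log (n := n)).symm

/-- algebraic independence of the powers of the primes -/
theorem primes_ai {S : Set ℝ} (hS : Good S) {b : ℝ} (hb : Irrational b) (hbK : (b : ℂ) ∈ KS S) :
    AlgebraicIndependent (KS S) (fun p : Nat.Primes => ((p : ℕ) : ℂ) ^ (b : ℂ)) := by
  apply algebraicIndependent_of_finite_type
  intro t ht
  have := ht.fintype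
  let E : Fin (Fintype.card t) ≃ t := (Fintype.equivFin t).symm
  have h1 := primes_fin hS hb hbK (fun i => (E i : Nat.Primes))
    (Subtype.val_injective.comp E.injective)
  have h2 := h1.comp E.symm E.symm.injective
  have h3 : ((fun i => exp ((Real.log (((E i : t) : Nat.Primes) : ℕ) : ℝ) * (b : ℂ))) ∘ E.symm) =
      fun i : t => (((i : Nat.Primes) : ℕ) : ℂ) ^ (b : ℂ) := by
    funext i
    rw [Function.comp_apply, E.apply_symm_apply, cpow_eq _ (i : Nat.Primes).2.ne_zero]
  rw [h3] at h2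
  exact h2

/-- the homomorphism `n ↦ n ^ b` -/
noncomputable def powHom (b : ℝ) : ℕ →* ℂ where
  toFun n := (n : ℂ) ^ (b : ℂ)
  map_one' := by simp
  map_mul' m n := by
    push_cast
    exact Complex.natCast_mul_natCast_cpow m n _

/-- linear independence of the powers of the integers -/
theorem ints_li {S : Set ℝ} (hS : Good S) {b : ℝ} (hb : Irrational b) (hbK : (b : ℂ) ∈ KS S) :
    LinearIndependent (KS S) (fun n : ℕ+ => ((n : ℕ) : ℂ) ^ (b : ℂ)) := by
  have h1 := (MvPolynomial.basisMonomials Nat.Primes (KS S)).linearIndependent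
  have h2 := h1.map' (MvPolynomial.aeval
    (fun p : Nat.Primes => ((p : ℕ) : ℂ) ^ (b : ℂ))).toLinearMap (by
      rw [LinearMap.ker_eq_bot]
      exact primes_ai hS hb hbK)
  let F : ℕ+ → (Nat.Primes →₀ ℕ) := fun n => (n : ℕ).factorization.subtypeDomain Nat.Prime
  have hF : Function.Injective F := by
    intro m n hmn
    apply PNat.eq
    apply Nat.eq_of_factorization_eq m.ne_zero n.ne_zero
    intro p
    by_cases hp : p.Prime
    · exact DFunLike.congr_fun hmn ⟨p, hp⟩
    · rw [Nat.factorization_eq_zero_of_not_prime _ hp, Nat.factorization_eq_zero_of_not_prime _ hp]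
  have h3 := h2.comp F hF
  have h4 : (((MvPolynomial.aeval
      (fun p : Nat.Primes => ((p : ℕ) : ℂ) ^ (b : ℂ))).toLinearMap ∘
      (MvPolynomial.basisMonomials Nat.Primes (KS S))) ∘ F) =
      fun n : ℕ+ => ((n : ℕ) : ℂ) ^ (b : ℂ) := by
    funext n
    rw [Function.comp_apply, Function.comp_apply, MvPolynomial.coe_basisMonomials,
      AlgHom.toLinearMap_apply, MvPolynomial.aeval_monomial, map_one, one_mul]
    have h5 : (F n).prod (fun p k => (((p : ℕ) : ℂ) ^ (b : ℂ)) ^ k) =
        (n : ℕ).factorization.prod (fun p k => ((p : ℂ) ^ (b : ℂ)) ^ k) :=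
      Finsupp.prod_subtypeDomain_index (p := Nat.Prime)
        (h := fun p k => ((p : ℂ) ^ (b : ℂ)) ^ k)
        (fun p hp => Nat.prime_of_mem_primeFactors (n := (n : ℕ)) hp)
    rw [h5]
    have h6 : powHom b ((n : ℕ).factorization.prod fun p k => p ^ k) = powHom b (n : ℕ) := by
      rw [Nat.prod_factorization_pow_eq_self n.ne_zero]
    rw [map_finsuppProd] at h6
    simp only [map_pow] at h6
    exact h6
  rw [h4] at h3
  exact h3

theorem ints_liQ {S : Set ℝ} (hS : Good S) {b : ℝ} (hb : Irrational b) (hbK : (b : ℂ) ∈ KS S) :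
    LinearIndependent ℚ (fun n : ℕ+ => ((n : ℕ) : ℝ) ^ b) := by
  have h1 := (ints_li hS hb hbK).restrict_scalars' ℚ
  have h2 : (fun n : ℕ+ => ((n : ℕ) : ℂ) ^ (b : ℂ)) =
      (Complex.ofRealCLM.toLinearMap.restrictScalars ℚ) ∘ (fun n : ℕ+ => ((n : ℕ) : ℝ) ^ b) := by
    funext n
    show _ = ((((n : ℕ) : ℝ) ^ b : ℝ) : ℂ)
    rw [Complex.ofReal_cpow (Nat.cast_nonneg _)]
    simp
  rw [h2] at h1
  exact h1.of_comp _

theorem weak {S : Set ℝ} (hS : Good S) {b : ℝ} (hb : Irrational b) (hbK : (b : ℂ) ∈ KS S) :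
    (∀ M : ℕ, (({n : ℕ | 1 ≤ n} ∩ Set.Icc 1 M).ncard : ℝ) = M) ∧
      LinearIndependent ℚ (fun n : {n : ℕ | 1 ≤ n} => ((n : ℕ) : ℝ) ^ b) := by
  constructor
  · intro M
    have h1 : {n : ℕ | 1 ≤ n} ∩ Set.Icc 1 M = ((Finset.Icc 1 M : Finset ℕ) : Set ℕ) := by
      ext n
      simp
    rw [h1, Set.ncard_coe_finset, Nat.card_Icc]
    simp
  · have h1 := (ints_liQ hS hb hbK).comp (fun n : {n : ℕ | 1 ≤ n} => (⟨n.1, n.2⟩ : ℕ+)) (by
      intro m n hmn
      exact Subtype.ext (congrArg (fun x : ℕ+ => (x : ℕ)) hmn))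
    exact h1

/-- stability under rational affine maps -/
theorem hypL_affine {l : ℝ} (hl : HypL l) (r t : ℚ) (hr : r ≠ 0) : HypL ((r : ℝ) * l + t) := by
  intro m
  obtain ⟨u, v, hv, hu, hru⟩ : ∃ (u v : ℤ), 0 < v ∧ u ≠ 0 ∧ (r : ℝ) = (u : ℝ) / v :=
    ⟨r.num, r.den, by exact_mod_cast r.pos, by simpa using hr, by
      have := Rat.num_div_den r
      exact_mod_cast this.symm⟩
  obtain ⟨w, x, hx, htw⟩ : ∃ (w x : ℤ), 0 < x ∧ (t : ℝ) = (w : ℝ) / x :=
    ⟨t.num, t.den, by exact_mod_cast t.pos, by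
      have := Rat.num_div_den t
      exact_mod_cast this.symm⟩
  -- common denominator `V = v x`
  obtain ⟨V, hV⟩ : ∃ V : ℕ, (V : ℤ) = v * x := ⟨(v * x).toNat, Int.toNat_of_nonneg (by positivity)⟩
  have hVpos : 0 < V := by
    have : (0 : ℤ) < V := by rw [hV]; positivity
    exact_mod_cast this
  obtain ⟨k, hk⟩ : ∃ k : ℕ, V ^ m + u.natAbs ≤ 2 ^ k :=
    ⟨V ^ m + u.natAbs, Nat.lt_two_pow_self.le⟩
  obtain ⟨q, p, hq, hne, hlt⟩ := hl (m + k)
  have hvR : (v : ℝ) ≠ 0 := by exact_mod_cast hv.ne'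
  have hxR : (x : ℝ) ≠ 0 := by exact_mod_cast hx.ne'
  have hqR : (q : ℝ) ≠ 0 := by positivity
  have hVR : ((V : ℕ) : ℝ) = v * x := by exact_mod_cast hV
  have key : (((u * x * p + w * v * q : ℤ) : ℝ)) / ((V * q : ℕ) : ℝ) =
      (r : ℝ) * ((p : ℝ) / q) + t := by
    rw [hru, htw]
    push_cast
    rw [hVR]
    field_simp
  refine ⟨V * q, u * x * p + w * v * q, ?_, ?_, ?_⟩
  · calc 2 ≤ q := hq
      _ ≤ V * q := Nat.le_mul_of_pos_left q hVpos
  · rw [key]
    intro h
    apply hne
    have h1 : (r : ℝ) * l = (r : ℝ) * ((p : ℝ) / q) := by linarith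
    exact mul_left_cancel₀ (by exact_mod_cast hr) h1
  · rw [key]
    have h1 : (r : ℝ) * l + t - ((r : ℝ) * ((p : ℝ) / q) + t) = r * (l - p / q) := by ring
    rw [h1, abs_mul]
    have hrle : |(r : ℝ)| ≤ (u.natAbs : ℝ) := by
      rw [hru, abs_div, Nat.cast_natAbs, Int.cast_abs]
      apply div_le_self (abs_nonneg _)
      have : (1 : ℤ) ≤ |v| := Int.one_le_abs hv.ne'
      exact_mod_cast this
    have hulog : (u.natAbs : ℝ) ≤ Real.exp (u.natAbs : ℝ) := by
      have := Real.add_one_le_exp (u.natAbs : ℝ)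
      linarith
    have h2 : |(r : ℝ)| * |l - p / q| < Real.exp (u.natAbs : ℝ) * Real.exp (-((q : ℝ) ^ (m + k))) := by
      apply lt_of_le_of_lt (mul_le_mul_of_nonneg_right (hrle.trans hulog) (abs_nonneg _))
      exact mul_lt_mul_of_pos_left hlt (Real.exp_pos _)
    refine h2.trans_le ?_
    rw [← Real.exp_add]
    apply Real.exp_le_exp.2
    have h3 : (((V * q : ℕ) : ℝ)) ^ m + (u.natAbs : ℝ) ≤ (q : ℝ) ^ (m + k) := by
      have h4 : (V * q) ^ m + u.natAbs ≤ q ^ (m + k) := by
        calc (V * q) ^ m + u.natAbs = V ^ m * q ^ m + u.natAbs := by rw [mul_pow]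
          _ ≤ V ^ m * q ^ m + u.natAbs * q ^ m := by
              have : 1 ≤ q ^ m := Nat.one_le_pow _ _ (by omega)
              nlinarith [Nat.zero_le u.natAbs]
          _ = (V ^ m + u.natAbs) * q ^ m := by ring
          _ ≤ 2 ^ k * q ^ m := Nat.mul_le_mul_right _ hk
          _ ≤ q ^ k * q ^ m := Nat.mul_le_mul_right _ (Nat.pow_le_pow_left hq k)
          _ = q ^ (m + k) := by rw [← pow_add, add_comm]
      exact_mod_cast h4
    linarith

end Pool.Agent.helper80.FF
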